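import Pool.Agent.Y223.G.Stm13
import Pool.Agent.Y858.H.Gche

/-!
# The charts of the products of elliptic curves: assembly
-/

set_option autoImplicit false

namespace Pool.Agent.Y987.H

open IsLocalRing Pool.Agent.Y223.G Pool.Agent.Y858.H

section forms

variable {O K : Type} [CommRing O] [Field K] [Algebra O K] {m : ℕ} {z : Fin (m + 1) → K}

theorem fs_mul {d e : ℕ} {x y : K} (hx : x ∈ FS O z d) (hy : y ∈ FS O z e) :
    x * y ∈ FS O z (d + e) := by
  have h := Submodule.mul_mem_mul hx hy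
  unfold FS at h
  rw [Submodule.span_mul_span] at h
  refine Submodule.span_mono ?_ h
  rintro _ ⟨_, ⟨a, ha, rfl⟩, _, ⟨b, hb, rfl⟩, rfl⟩
  refine ⟨a + b, ?_, ?_⟩
  · simp only [Pi.add_apply, Finset.sum_add_distrib, ha, hb]
  · simp only [Pi.add_apply, pow_add, Finset.prod_mul_distrib]

theorem fs_zero : (1 : K) ∈ FS O z 0 := by
  refine Submodule.subset_span ⟨fun _ => 0, ?_, ?_⟩
  · simp
  · simp

theorem fs_pow {x : K} (hx : x ∈ FS O z 1) (n : ℕ) : x ^ n ∈ FS O z n := by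
  induction n with
  | zero =>
    rw [pow_zero]
    exact fs_zero
  | succ n ih =>
    rw [pow_succ]
    exact fs_mul ih hx

theorem fs_prod {x : Fin (m + 1) → K} (hx : ∀ j, x j ∈ FS O z 1) (a : Fin (m + 1) → ℕ)
    (S : Finset (Fin (m + 1))) : ∏ j ∈ S, x j ^ a j ∈ FS O z (∑ j ∈ S, a j) := by
  classical
  induction S using Finset.induction_on with
  | empty => exact fs_zero
  | insert j S hj ih =>
    rw [Finset.prod_insert hj, Finset.sum_insert hj]
    exact fs_mul (fs_pow (hx j) _) ih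

theorem fs_one {x : K} (hx : x ∈ Submodule.span O (Set.range z)) : x ∈ FS O z 1 := by
  refine Submodule.span_mono ?_ hx
  rintro _ ⟨j, rfl⟩
  refine ⟨Pi.single j 1, ?_, ?_⟩
  · rw [Finset.sum_pi_single' j 1 Finset.univ]
    simp
  · rw [Finset.prod_eq_single j]
    · rw [Pi.single_eq_same, pow_one]
    · intro i _ hi
      rw [Pi.single_eq_of_ne hi, pow_zero]
    · intro h
      exact absurd (Finset.mem_univ j) h

theorem af_fs {d : ℕ} {F x : K} (hx : x ∈ FS O z d) : x / F ∈ AF O z d F := by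
  unfold FS at hx
  induction hx using Submodule.span_induction with
  | mem x hx => exact Algebra.subset_adjoin ⟨x, hx, rfl⟩
  | zero =>
    rw [zero_div]
    exact Subalgebra.zero_mem _
  | add x y _ _ hx hy =>
    rw [add_div]
    exact Subalgebra.add_mem _ hx hy
  | smul c x _ hx =>
    rw [Algebra.smul_def, mul_div_assoc]
    exact Subalgebra.mul_mem _ (Subalgebra.algebraMap_mem _ c) hx

end forms

section loc

variable {k O K : Type} [CommRing k] [CommRing O] [Field K] [Algebra k O] [Algebra O K]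
  [Algebra k K] [IsScalarTower k O K]

theorem fs_loc (s : k) {m : ℕ} {z : Fin (m + 1) → K} {d : ℕ} {x : K} (hx : x ∈ FS O z d) :
    x ∈ FS (OL O (K := K) s) z d := by
  unfold FS at hx
  induction hx using Submodule.span_induction with
  | mem x hx => exact Submodule.subset_span hx
  | zero => exact Submodule.zero_mem _
  | add x y _ _ hx hy => exact Submodule.add_mem _ hx hy
  | smul c x _ hx =>
    have h1 : algebraMap O K c ∈ OL O (K := K) s := ⟨0, c, by rw [pow_zero, one_mul]⟩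
    have h2 := Submodule.smul_mem _ (⟨algebraMap O K c, h1⟩ : OL O (K := K) s) hx
    rw [Algebra.smul_def] at h2 ⊢
    exact h2

variable {L : Type} [Field L] [Algebra L K]

theorem mn_memO {m : ℕ} {z : Fin (m + 1) → K} (E : IntermediateField L K)
    (hE : ∀ j, z j / z 0 ∈ E) {d : ℕ} {x : K} (hx : x ∈ MN z d) : x / z 0 ^ d ∈ E := by
  obtain ⟨a, ha, rfl⟩ := hx
  have h1 : (∏ j, z j ^ a j) / z 0 ^ d = ∏ j, (z j / z 0) ^ a j := by
    rw [← ha, ← Finset.prod_pow_eq_pow_sum, ← Finset.prod_div_distrib]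
    refine Finset.prod_congr rfl fun j _ => ?_
    rw [div_pow]
  rw [h1]
  exact E.prod_mem fun j _ => pow_mem (hE j) _

theorem fs_memO (lo : ∀ c : O, ∃ x : L, algebraMap L K x = algebraMap O K c)
    {m : ℕ} {z : Fin (m + 1) → K} (E : IntermediateField L K)
    (hE : ∀ j, z j / z 0 ∈ E) {d : ℕ} {F : K} (hF : F ∈ FS O z d) : F / z 0 ^ d ∈ E := by
  unfold FS at hF
  induction hF using Submodule.span_induction with
  | mem x hx => exact mn_memO E hE hx
  | zero =>
    rw [zero_div]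
    exact E.zero_mem
  | add x y _ _ hx hy =>
    rw [add_div]
    exact E.add_mem hx hy
  | smul c x _ hx =>
    rw [Algebra.smul_def, mul_div_assoc]
    obtain ⟨y, hy⟩ := lo c
    rw [← hy]
    exact E.mul_mem (E.algebraMap_mem y) hx

theorem af_leO (lo : ∀ c : O, ∃ x : L, algebraMap L K x = algebraMap O K c) (s : k)
    (lOL : ∀ o : OL O (K := K) s, ∃ x : L, algebraMap L K x = (o : K))
    {m : ℕ} {z : Fin (m + 1) → K} (hz0 : z 0 ≠ 0)
    (E : IntermediateField L K) (hE : ∀ j, z j / z 0 ∈ E) {d : ℕ} {F : K}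
    (hF : F ∈ FS O z d) :
    AF (OL O (K := K) s) z d F ≤ Pool.Agent.Y434.G.toSub s lOL E := by
  unfold AF
  rw [Algebra.adjoin_le_iff]
  rintro y ⟨x, hx, rfl⟩
  show _ ∈ E
  have h3 : x / F = (x / z 0 ^ d) / (F / z 0 ^ d) :=
    (div_div_div_cancel_right₀ (pow_ne_zero d hz0) _ _).symm
  rw [h3]
  exact E.div_mem (mn_memO E hE hx) (fs_memO lo E hE hF)

end loc

/-- cancellation of a uniformizer -/
theorem cancel_unif {R : Type} [CommRing R] [IsDedekindDomain R] {P : Ideal R}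
    (hP : P.IsMaximal) (h0 : P ≠ ⊥) {x π : R} {l : ℕ} (h : x * π ∈ P ^ (l + 1)) (hπ : π ∈ P)
    (hπ2 : π ∉ P ^ 2) : x ∈ P ^ l := by
  have hp : Prime P := Ideal.prime_of_isPrime h0 hP.isPrime
  have h1 : P ∣ Ideal.span {π} := by
    rw [Ideal.dvd_span_singleton]
    exact hπ
  obtain ⟨J, hJ⟩ := h1
  have hJ2 : ¬ P ∣ J := by
    rintro ⟨J', hJ'⟩
    apply hπ2
    rw [← Ideal.dvd_span_singleton, hJ, hJ']
    exact ⟨J', by ring⟩
  have h2 : P ^ (l + 1) ∣ Ideal.span {x} * (P * J) := by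
    rw [← hJ, Ideal.span_singleton_mul_span_singleton, Ideal.dvd_span_singleton]
    exact h
  have h3 : P ^ l ∣ Ideal.span {x} * J := by
    have e : Ideal.span {x} * (P * J) = P * (Ideal.span {x} * J) := by ring
    rw [e, pow_succ'] at h2
    exact (mul_dvd_mul_iff_left h0).1 h2
  have h4 := hp.pow_dvd_of_dvd_mul_right l hJ2 h3
  rw [Ideal.dvd_span_singleton] at h4
  exact h4

theorem t_ECCH : S_CHW → S_RWB → S_ECE → S_ECF → S_ECR → S_ECS → S_ECDL → S_ECOL → S_REGL →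
    S_SMAL → S_LDG → S_ECSM → S_ECCH := by
  intro hCH hRWB hECE hECF hECR hECS hECDL hECOL hREGL hSMAL hLDG hECSM
    k O M Y Y₂ K K₂ G Ω _ _ _ _ _ _ _ _ _ _ _ _ _ _ _ _ _ _ _ _ _ _ _
    ι ι₂ εY ε ρ ρ₂ hE T z hH Wc hD h3 s hDD Tb N _ 𝔔 p l τ π hs hL hin
  have hsK : algebraMap k K s ≠ 0 := fun h => hs (hH.injk (by rw [h, map_zero]))
  have hOK : ∀ o : O, algebraMap O K o ∈ OL O (K := K) s := fun o => mem_OLb s o
  -- constants
  have lk : ∀ c : k, ∃ x : M, algebraMap M K x = algebraMap k K c := by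
    intro c
    rw [IsScalarTower.algebraMap_apply k O K]
    exact hH.lo _
  have lOL : ∀ o : OL O (K := K) s, ∃ x : M, algebraMap M K x = (o : K) := by
    rintro ⟨x, n, y, h⟩
    obtain ⟨s', hs'⟩ := lk s
    obtain ⟨y', hy'⟩ := hH.lo y
    refine ⟨y' / s' ^ n, ?_⟩
    rw [map_div₀, map_pow, hy', hs', ← h]
    field_simp
  -- the curves over the localised base
  obtain ⟨Wc', hD'⟩ := hECOL k O K G Ω hH.inj ρ T hH.com z Wc hD s hsK Tb hL.com
  -- the wild primes divide three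
  have h3' : ∀ i, (3 : OL O (K := K) s) ∈ 𝔔 i := by
    intro i
    obtain ⟨g, hg1, hg, hg2⟩ := hin i
    have hTb : ∀ o : O, Tb g ⟨algebraMap O K o, hOK o⟩ - ⟨algebraMap O K o, hOK o⟩ =
        (⟨algebraMap O K (T g o - o), mem_OLb s _⟩ : OL O (K := K) s) := by
      intro o
      apply Subtype.ext
      show ((Tb g ⟨algebraMap O K o, hOK o⟩ : OL O (K := K) s) : K) - algebraMap O K o =
        algebraMap O K (T g o - o)
      rw [map_sub, ← hH.com]
      congr 1
      exact (hL.com g ⟨algebraMap O K o, hOK o⟩).symm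
    have hM := ctr_maximal hH.inj (hL.mx i) (hL.ne i)
    have h4 := h3 (ctr s (𝔔 i)) hM.isPrime ⟨g, hg1, fun o => ?_, fun o ho => ?_⟩
    · rw [mem_ctr] at h4
      have h5 : (⟨algebraMap O K 3, mem_OLb s 3⟩ : OL O (K := K) s) = 3 :=
        Subtype.ext (map_ofNat (algebraMap O K) 3)
      rw [h5] at h4
      exact h4
    · rw [mem_ctr, ← hTb]
      exact hg _
    · refine ctr_sq hH.inj hsK (hL.mx i) (hL.ne i) ?_
      rw [← hTb]
      exact hg2 _ (mem_ctr.1 ho)
  obtain ⟨B, hl, hB, hsg⟩ := hECDL k (OL O (K := K) s) K G Ω ρ Tb N 𝔔 p l τ π hL z Wc' hD' hin h3'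
  refine ⟨fun _ => 2, fun i => WE (l i) (B i), fun _ => two_pos, fun d Φ hd hΦ => ?_⟩
  have hΦ' : ∀ ω, Φ ω ∈ FS (OL O (K := K) s) (z ω) d := fun ω => fs_loc s (hΦ.mem ω)
  have hNO : IsNoetherianRing (OL O (K := K) s) := inferInstance
  have hrgC : IsRegularRing (CG (OL O (K := K) s) z d Φ) :=
    hREGL k O K Ω s hsK 2 z hH.z0 hH.rg d Φ hd hΦ.mem hΦ.ne
  have hld : ∀ (S : Finset Ω) (ω : Ω), ω ∉ S →
      (⨆ ω' ∈ S, AF (OL O (K := K) s) (z ω') d (Φ ω')).LinearDisjoint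
        (AF (OL O (K := K) s) (z ω) d (Φ ω)) := by
    intro S ω hω
    refine hLDG (OL O (K := K) s) M K Subtype.val_injective (fun o => lOL o) ?_
      (⨆ ω' ∈ S, AF (OL O (K := K) s) (z ω') d (Φ ω')) (AF (OL O (K := K) s) (z ω) d (Φ ω))
      _ _ ?_ ?_ (hH.ld S ω hω)
    · intro x
      obtain ⟨a, b, hb, hab⟩ := hH.lf x
      refine ⟨⟨_, hOK a⟩, ⟨_, hOK b⟩, ?_, hab⟩
      intro h
      apply hb
      apply hH.inj
      rw [map_zero]
      exact congrArg Subtype.val h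
    · have h1 : (⨆ ω' ∈ S, AF (OL O (K := K) s) (z ω') d (Φ ω')) ≤
          Pool.Agent.Y434.G.toSub s lOL (IntermediateField.adjoin M
          {y : K | ∃ ω' ∈ S, ∃ j, y = z ω' j / z ω' 0}) := by
        refine iSup₂_le fun ω' hω' => ?_
        refine af_leO hH.lo s lOL (hH.z0 ω' 0) _ (fun j => ?_) (hΦ.mem ω')
        exact IntermediateField.subset_adjoin M _ ⟨ω', hω', j, rfl⟩
      exact fun a ha => h1 ha
    · have h1 : AF (OL O (K := K) s) (z ω) d (Φ ω) ≤
          Pool.Agent.Y434.G.toSub s lOL (IntermediateField.adjoin M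
          {y : K | ∃ j, y = z ω j / z ω 0}) := by
        refine af_leO hH.lo s lOL (hH.z0 ω 0) _ (fun j => ?_) (hΦ.mem ω)
        exact IntermediateField.subset_adjoin M _ ⟨j, rfl⟩
      exact fun a ha => h1 ha
  have hsm : ∀ ω (q : Ideal (AF (OL O (K := K) s) (z ω) d (Φ ω))) [q.IsPrime],
      Algebra.IsSmoothAt (OL O (K := K) s) q := by
    intro ω q hq
    exact hSMAL k O K hH.inj s hsK 2 (z ω) (hH.z0 ω)
      (fun j q' hq' => hECSM O K hH.inj (z ω) (Wc ω) (hD.ec ω) (hD.du ω) j q')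
      d (Φ ω) hd (hΦ.mem ω) (hΦ.ne ω) q
  -- stability of the chart
  have hst : ∀ g, ∀ c ∈ CG (OL O (K := K) s) z d Φ, ρ g c ∈ CG (OL O (K := K) s) z d Φ := by
    intro g
    let V : Subalgebra (OL O (K := K) s) K :=
      { carrier := {x | ρ g x ∈ CG (OL O (K := K) s) z d Φ}
        mul_mem' := by
          intro a b ha hb
          show ρ g (a * b) ∈ CG (OL O (K := K) s) z d Φ
          rw [map_mul]
          exact Subalgebra.mul_mem _ ha hb
        add_mem' := by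
          intro a b ha hb
          show ρ g (a + b) ∈ CG (OL O (K := K) s) z d Φ
          rw [map_add]
          exact Subalgebra.add_mem _ ha hb
        algebraMap_mem' := by
          intro r
          show ρ g (algebraMap (OL O (K := K) s) K r) ∈ CG (OL O (K := K) s) z d Φ
          rw [hL.com]
          exact Subalgebra.algebraMap_mem _ _ }
    have hle : CG (OL O (K := K) s) z d Φ ≤ V := by
      unfold CG
      refine iSup_le fun ω => ?_
      unfold AF
      rw [Algebra.adjoin_le_iff]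
      rintro y ⟨x, ⟨a, ha, rfl⟩, rfl⟩
      show ρ g ((∏ j, z ω j ^ a j) / Φ ω) ∈ CG (OL O (K := K) s) z d Φ
      rw [map_div₀, map_prod, hΦ.inv]
      have h1 : ∏ j, ρ g (z ω j ^ a j) ∈ FS (OL O (K := K) s) (z ω) d := by
        have h2 : ∀ j, ρ g (z ω j ^ a j) = (ρ g (z ω j)) ^ a j := fun j => map_pow _ _ _
        simp only [h2]
        have h3 := fs_prod (O := OL O (K := K) s) (z := z ω) (x := fun j => ρ g (z ω j))
          (fun j => fs_loc s (fs_one (hH.lin g ω j))) a Finset.univ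
        rw [ha] at h3
        exact h3
      have h2 := af_fs (F := Φ ω) h1
      exact (le_iSup (fun ω => AF (OL O (K := K) s) (z ω) d (Φ ω)) ω) h2
    exact fun c hc => hle hc
  have hftC : Algebra.FiniteType (OL O (K := K) s) (CG (OL O (K := K) s) z d Φ) := by
    rw [← Subalgebra.fg_iff_finiteType]
    unfold CG AF
    rw [← Algebra.adjoin_iUnion, Subalgebra.fg_def]
    refine ⟨_, Set.finite_iUnion fun ω => ?_, rfl⟩
    have h1 : {y : K | ∃ x ∈ MN (z ω) d, y = x / Φ ω} = (fun x => x / Φ ω) '' MN (z ω) d := by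
      ext y
      constructor
      · rintro ⟨x, hx, rfl⟩
        exact ⟨x, hx, rfl⟩
      · rintro ⟨x, hx, rfl⟩
        exact ⟨x, hx, rfl⟩
    rw [h1]
    exact (Pool.Agent.Y434.G.MN_finite _ d).image _
  have hb := fun i => hRWB k (OL O (K := K) s) K Ω (𝔔 i) 2 two_pos 2 (WE (l i) (B i)) z d Φ
  have hrg : ∀ i, IsRegularRing (RW k (𝔔 i) 2 (WE (l i) (B i)) z d Φ) := fun i =>
    hECR k (OL O (K := K) s) K Ω hL.inj hL.ft (𝔔 i) (hL.mx i) (hL.ne i) (l i) (hl i) z Wc' (B i)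
      (hB i).ec d Φ hd hΦ' hΦ.ne hld (fun ω q hq _ => @hsm ω q hq) hrgC
  have hW : WCt k (OL O (K := K) s) K G ρ Tb 𝔔 τ π (CG (OL O (K := K) s) z d Φ)
      (fun i => RW k (𝔔 i) 2 (WE (l i) (B i)) z d Φ) := by
    refine ⟨hst, hftC, hrgC, fun i => (hb i).1, fun i => (hb i).2.1, fun i => (hb i).2.2.1,
      fun i => (hb i).2.2.2.1, fun i => (hb i).2.2.2.2.2.2 hL.ft hNO, hrg,
      fun i => (hb i).2.2.2.2.1, ?_, ?_⟩
    · intro g i j hij f hf
      obtain ⟨hBij, hlij⟩ := hsg g i j hij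
      rw [hBij, hlij] at hf
      refine hECS k (OL O (K := K) s) K Ω (ρ g) (Tb g) (hL.com g) (𝔔 i) (𝔔 j)
        (fun o ho => (hij o).1 ho) z (fun ω => (hD'.ec ω).z2) (fun ω => ?_) (l j) (B j) d Φ
        (hΦ.inv g) f hf
      obtain ⟨a, b, -, -, h⟩ := hD'.ch ω
      obtain ⟨C, h1, h2, -⟩ := h g
      exact ⟨C.u, C.r, C.s, C.t, h1, h2⟩
    · intro i
      refine ⟨2 * l i, by have := hl i; omega, fun f hf => ?_, fun w hw => ?_, ?_⟩
      · exact hECE k (OL O (K := K) s) K Ω (ρ (τ i)) (Tb (τ i)) (𝔔 i) (l i) (hl i) z Wc' (B i)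
          (hB i) d Φ (hΦ.inv (τ i)) f hf
      · refine (hb i).2.2.2.2.2.1 (l i) _ ?_
        refine cancel_unif (hL.mx i) (hL.ne i) ?_ (hL.pq i).1 (hL.pq i).2
        have e : (w - 1) * π = Tb (τ i) π - π := by
          rw [hw]
          ring
        rw [e]
        exact (hB i).dv π
      · intro Q hQ h1 h2
        exact hECF k (OL O (K := K) s) K Ω hL.inj (ρ (τ i)) (Tb (τ i)) (𝔔 i) (hL.mx i) (hL.ne i)
          (l i) (hl i) (hL.ty i).1.un z Wc' (B i) (hB i) d Φ hd hΦ' hΦ.ne (hΦ.inv (τ i)) Q hQ h1 h2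
  exact hCH k (OL O (K := K) s) K K₂ G ε hE.eK ρ ρ₂ hE.act Tb N 𝔔 p l τ π hL _ _ hW Y₂ ι₂ hE.fix

end Pool.Agent.Y987.H
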